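import Pool.Agent.Helper45.AM.GoalsB
import Pool.Agent.Helper15.AM.GoalsG

/-!
# Project AM, packet AM-B4: moving a `W_K`-factor through
-/

set_option autoImplicit false

open LaurentPolynomial Pool.Agent.Helper15.RA Pool.Agent.Helper45.AM Pool.Agent.Helper15.AM

noncomputable section

namespace Pool.Agent.Helper49.AM

section

variable {S W H : Type} [Group W] [Ring H] [Algebra ℤ[T;T⁻¹] H] (X : AC S W H)

/-- One step: `u = x' a`, `a κ = κ₁ w`. -/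
theorem b4_step (hPC : G_PC) (hB1 : B_1) (b : Bool) (u κ : W) (hu : XR X.cs (X.F b) u)
    (hκ : κ ∈ par X.cs X.K) (h1 : u ≠ 1) : ∃ x' a κ₁ w, u = x' * a ∧ XR X.cs (X.F (!b)) x' ∧
      a ∈ par X.cs (X.F (!b)) ∧ X.cs.length x' < X.cs.length u ∧ κ₁ ∈ par X.cs X.K ∧
      a * κ = κ₁ * w ∧ ∀ v, XL X.cs (X.F (!b)) v → XL X.cs (X.F b) (w * v) := by
  obtain ⟨p1, -, -, -, -, p6, -, p8, -, -, -, p12, -⟩ := hB1 S W H X
  obtain ⟨x', a, rfl, hx', ha, haK, ha1, hl⟩ := p6 b u hu h1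
  obtain ⟨-, -, -, q4, -⟩ := hPC S W X.M X.cs X.K
  obtain ⟨κ₁, hκ₁, w, hw, haw⟩ := q4 (a * κ)
  have hwF : w ∈ par X.cs (X.F (!b)) := by
    have h2 : w = κ₁⁻¹ * (a * κ) := by rw [haw, inv_mul_cancel_left]
    rw [h2]
    exact mul_mem (inv_mem (p1 (!b) hκ₁)) (mul_mem ha (p1 (!b) hκ))
  have hw1 : w ≠ 1 := by
    rintro rfl
    refine ha1 (p8 a (Or.inl haK) ?_)
    have h2 : a = κ₁ * κ⁻¹ := by
      rw [mul_one] at haw
      rw [← haw, mul_inv_cancel_right]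
    rw [h2]
    exact mul_mem hκ₁ (inv_mem hκ)
  have hal : X.cs.length a ≠ 0 := fun h ↦ ha1 (X.cs.length_eq_zero_iff.1 h)
  exact ⟨x', a, κ₁, w, rfl, hx', ha, by omega, hκ₁, haw, fun v hv ↦ p12 b v w hv hwF hw hw1⟩

theorem b4_one (hPC : G_PC) (hB1 : B_1) : ∀ (n : ℕ) (b : Bool) (u κ : W), X.cs.length u ≤ n →
    XR X.cs (X.F b) u → κ ∈ par X.cs X.K → ∃ κ' ∈ par X.cs X.K, ∃ u', u * κ = κ' * u' ∧
    ∀ v, XL X.cs (X.F (!b)) v → XL X.cs X.K (u' * v) := by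
  intro n
  induction n using Nat.strong_induction_on with
  | _ n ih =>
    intro b u κ hn hu hκ
    by_cases h1 : u = 1
    · refine ⟨κ, hκ, 1, by rw [h1, one_mul, mul_one], fun v hv ↦ ?_⟩
      rw [one_mul]
      exact ((hB1 S W H X).2.2.1 (!b) v).2 hv
    · obtain ⟨x', a, κ₁, w, rfl, hx', -, hl, hκ₁, haw, hwv⟩ := b4_step X hPC hB1 b u κ hu hκ h1
      obtain ⟨κ', hκ', u₁, h2, h3⟩ := ih (X.cs.length x') (by omega) (!b) x' κ₁ le_rfl hx' hκ₁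
      refine ⟨κ', hκ', u₁ * w, ?_, fun v hv ↦ ?_⟩
      · rw [mul_assoc, haw, ← mul_assoc, h2, mul_assoc]
      · rw [mul_assoc]
        refine h3 _ ?_
        rw [Bool.not_not]
        exact hwv v hv

theorem b4_two (hPC : G_PC) (hB1 : B_1) : ∀ (n : ℕ) (b c : Bool) (u κ : W), X.cs.length u ≤ n →
    XR X.cs (X.F b) u → κ ∈ par X.cs X.K → (u ≠ 1 ∨ c = !b) →
    ∃ l ∈ par X.cs (X.F c), ∃ u', u * κ = l * u' ∧
    ∀ v, XL X.cs (X.F (!b)) v → XL X.cs (X.F c) (u' * v) := by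
  intro n
  induction n using Nat.strong_induction_on with
  | _ n ih =>
    intro b c u κ hn hu hκ hc
    by_cases h1 : u = 1
    · have hcb : c = !b := hc.resolve_left fun h ↦ h h1
      refine ⟨κ, (hB1 S W H X).1 c hκ, 1, by rw [h1, one_mul, mul_one], fun v hv ↦ ?_⟩
      rw [one_mul, hcb]
      exact hv
    · obtain ⟨x', a, κ₁, w, rfl, hx', ha, hl, hκ₁, haw, hwv⟩ := b4_step X hPC hB1 b u κ hu hκ h1
      by_cases h4 : x' ≠ 1 ∨ c = b
      · obtain ⟨l, hl', u₁, h2, h3⟩ := ih (X.cs.length x') (by omega) (!b) c x' κ₁ le_rfl hx' hκ₁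
          (by rwa [Bool.not_not])
        refine ⟨l, hl', u₁ * w, ?_, fun v hv ↦ ?_⟩
        · rw [mul_assoc, haw, ← mul_assoc, h2, mul_assoc]
        · rw [mul_assoc]
          refine h3 _ ?_
          rw [Bool.not_not]
          exact hwv v hv
      · push Not at h4
        obtain ⟨h5, h6⟩ := h4
        have hcb : c = !b := by
          cases b <;> cases c <;> simp_all
        rw [h5, one_mul, hcb]
        exact ⟨a * κ, mul_mem ha ((hB1 S W H X).1 (!b) hκ), 1, by rw [mul_one], fun v hv ↦ by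
          rwa [one_mul]⟩

end

theorem h_b_4 (hPC : G_PC) (hB1 : B_1) : B_4 := by
  intro S W H _ _ _ X
  refine ⟨fun b u κ hu hκ ↦ b4_one X hPC hB1 _ b u κ le_rfl hu hκ,
    fun b c u κ hu hκ hc ↦ b4_two X hPC hB1 _ b c u κ le_rfl hu hκ hc, fun b u κ hu hκ ↦ ?_⟩
  have hinv := (hB1 S W H X).2.2.2.2.2.2.2.2.2.2.2.2
  obtain ⟨κ', hκ', u', h1, h2⟩ := b4_one X hPC hB1 _ b u⁻¹ κ⁻¹ le_rfl ((hinv b u).2 hu) (inv_mem hκ)
  refine ⟨κ'⁻¹, inv_mem hκ', u'⁻¹, ?_, fun v hv ↦ ?_⟩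
  · rw [← mul_inv_rev, ← h1, mul_inv_rev, inv_inv, inv_inv]
  · have h3 := h2 v⁻¹ ((hinv (!b) v).1 hv)
    rw [(hPC S W X.M X.cs X.K).2.2.1, mul_inv_rev, inv_inv] at h3
    exact h3

end Pool.Agent.Helper49.AM
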