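import Pool.Agent.Helper15.AM.GoalsG

/-!
# Project AM, packet AM-FIN: a product of finite dihedral groups is finite
-/

set_option autoImplicit false

noncomputable section

namespace Pool.Agent.Helper49.AM

open Pool.Agent.Helper15.AM

/-- The group generated by two involutions `s`, `t` with `s t` of finite order is finite. -/
theorem finite_pair {W : Type} [Group W] {s t : W} (hs : s * s = 1) (ht : t * t = 1) {m : ℕ}
    (hm : m ≠ 0) (hst : (s * t) ^ m = 1) : Finite (Subgroup.closure {s, t} : Subgroup W) := by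
  obtain ⟨r, hr⟩ : ∃ r : W, r = s * t := ⟨_, rfl⟩
  have hfin : IsOfFinOrder r := isOfFinOrder_iff_pow_eq_one.2 ⟨m, Nat.pos_of_ne_zero hm, hr ▸ hst⟩
  have hsi : s⁻¹ = s := inv_eq_of_mul_eq_one_left hs
  have hti : t⁻¹ = t := inv_eq_of_mul_eq_one_left ht
  have hri : s * r * s⁻¹ = r⁻¹ := by
    rw [hr, mul_inv_rev, hsi, hti, ← mul_assoc, hs, one_mul]
  have hc : ∀ n : ℤ, s * r ^ n = r ^ (-n) * s := by
    intro n
    have h1 := conj_zpow (a := s) (b := r) (i := n)
    rw [hri, inv_zpow, ← zpow_neg] at h1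
    rw [h1, hsi, mul_assoc, hs, mul_one]
  let D : Subgroup W :=
    { carrier := {x | ∃ n : ℤ, x = r ^ n ∨ x = r ^ n * s}
      one_mem' := ⟨0, Or.inl (zpow_zero r).symm⟩
      mul_mem' := by
        rintro x y ⟨n, rfl | rfl⟩ ⟨k, rfl | rfl⟩
        · exact ⟨n + k, Or.inl (zpow_add r n k).symm⟩
        · refine ⟨n + k, Or.inr ?_⟩
          rw [zpow_add, mul_assoc]
        · refine ⟨n + -k, Or.inr ?_⟩
          rw [mul_assoc, hc, ← mul_assoc, ← zpow_add]
        · refine ⟨n + -k, Or.inl ?_⟩
          rw [mul_assoc, ← mul_assoc s, hc, mul_assoc, hs, mul_one, ← zpow_add]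
      inv_mem' := by
        rintro x ⟨n, rfl | rfl⟩
        · exact ⟨-n, Or.inl (zpow_neg r n).symm⟩
        · refine ⟨n, Or.inr ?_⟩
          rw [mul_inv_rev, hsi, ← zpow_neg, hc, neg_neg] }
  have hD : (D : Set W).Finite := by
    have h1 : (Subgroup.zpowers r : Set W).Finite := hfin.finite_zpowers
    refine (h1.union (h1.image fun x ↦ x * s)).subset ?_
    rintro x ⟨n, rfl | rfl⟩
    · exact Or.inl ⟨n, rfl⟩
    · exact Or.inr ⟨r ^ n, ⟨n, rfl⟩, rfl⟩
  have hle : Subgroup.closure {s, t} ≤ D := by
    rw [Subgroup.closure_le]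
    rintro x (rfl | hx)
    · exact ⟨0, Or.inr (by rw [zpow_zero, one_mul])⟩
    · rw [Set.mem_singleton_iff] at hx
      subst hx
      refine ⟨-1, Or.inr ?_⟩
      rw [zpow_neg_one, hr, mul_inv_rev, hsi, hti, mul_assoc, hs, mul_one]
  exact (hD.subset hle).to_subtype

/-- The join of two finite subgroups which commute elementwise is finite. -/
theorem finite_sup {W : Type} [Group W] {H K : Subgroup W} (hH : Finite H) (hK : Finite K)
    (h : K ≤ Subgroup.centralizer (H : Set W)) : Finite (H ⊔ K : Subgroup W) := by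
  have hcomm : ∀ (m : H) (n : K), Commute (H.subtype m) (K.subtype n) := by
    intro m n
    exact (Subgroup.mem_centralizer_iff.1 (h n.2)) m.1 m.2
  have hfin : ((MonoidHom.noncommCoprod H.subtype K.subtype hcomm).range : Set W).Finite :=
    Set.finite_range _
  have hle : H ⊔ K ≤ (MonoidHom.noncommCoprod H.subtype K.subtype hcomm).range := by
    refine sup_le ?_ ?_
    · intro x hx
      exact ⟨(⟨x, hx⟩, 1), by simp⟩
    · intro x hx
      exact ⟨(1, ⟨x, hx⟩), by simp⟩
  exact (hfin.subset hle).to_subtype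

theorem h_gfin : G_FIN := by
  classical
  intro S W _ _ M cs h0 h3
  have hsym : ∀ i j, M i j = M j i := fun i j ↦ M.symmetric i j
  obtain ⟨f, hf⟩ : ∃ f : S → S, ∀ i, (3 ≤ M i (f i)) ∨ (f i = i ∧ ∀ j, ¬ 3 ≤ M i j) := by
    have : ∀ i, ∃ k, (3 ≤ M i k) ∨ (k = i ∧ ∀ j, ¬ 3 ≤ M i j) := by
      intro i
      by_cases h : ∃ j, 3 ≤ M i j
      · obtain ⟨j, hj⟩ := h
        exact ⟨j, Or.inl hj⟩
      · exact ⟨i, Or.inr ⟨rfl, fun j hj ↦ h ⟨j, hj⟩⟩⟩
    choose f hf using this
    exact ⟨f, hf⟩
  have hfu : ∀ i j, 3 ≤ M i j → j = f i := by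
    intro i j hij
    rcases hf i with h | h
    · by_contra hne
      exact h3 j i (f i) hne (by rw [hsym]; exact hij) h
    · exact absurd hij (h.2 j)
  have hff : ∀ i, f (f i) = i := by
    intro i
    rcases hf i with h | h
    · exact (hfu (f i) i (by rw [hsym]; exact h)).symm
    · rw [h.1, h.1]
  have hinv : ∀ i, cs.simple i * cs.simple i = 1 := fun i ↦ cs.simple_mul_simple_self i
  have hcom : ∀ i j, i ≠ j → j ≠ f i → cs.simple i * cs.simple j = cs.simple j * cs.simple i := by
    intro i j hij hji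
    have h1 : ¬ 3 ≤ M i j := fun h ↦ hji (hfu i j h)
    have h2 : M i j ≠ 1 := M.off_diagonal i j hij
    have h4 := h0 i j
    have h5 : M i j = 2 := by omega
    have h6 := cs.simple_mul_simple_pow i j
    rw [h5, pow_two] at h6
    have h7 : cs.simple i * cs.simple j = (cs.simple i * cs.simple j)⁻¹ :=
      eq_inv_of_mul_eq_one_left h6
    rw [h7, mul_inv_rev, cs.inv_simple, cs.inv_simple]
  let H : S → Subgroup W := fun i ↦ Subgroup.closure {cs.simple i, cs.simple (f i)}
  have hHfin : ∀ i, Finite (H i) := fun i ↦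
    finite_pair (hinv i) (hinv (f i)) (h0 i (f i)) (cs.simple_mul_simple_pow i (f i))
  have hHf : ∀ i, H (f i) = H i := by
    intro i
    change Subgroup.closure {cs.simple (f i), cs.simple (f (f i))} =
      Subgroup.closure {cs.simple i, cs.simple (f i)}
    rw [hff, Set.pair_comm]
  have hHc : ∀ i j, i ≠ j → j ≠ f i → H j ≤ Subgroup.centralizer (H i : Set W) := by
    intro i j hij hji
    have g1 : ∀ a b, (a = i ∨ a = f i) → (b = j ∨ b = f j) →
        cs.simple a * cs.simple b = cs.simple b * cs.simple a := by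
      rintro a b (rfl | rfl) (rfl | rfl)
      · exact hcom _ _ hij hji
      · refine hcom _ _ (fun h ↦ hji ?_) fun h ↦ hij ?_
        · rw [h, hff]
        · rw [← hff a, ← h, hff]
      · refine hcom _ _ (fun h ↦ hji h.symm) fun h ↦ hij ?_
        rw [h, hff]
      · refine hcom _ _ (fun h ↦ hij ?_) fun h ↦ hji ?_
        · rw [← hff i, h, hff]
        · rw [← hff j, h, hff]
    refine (Subgroup.closure_le _).2 ?_
    have g2 : ∀ b, (b = j ∨ b = f j) → cs.simple b ∈ Subgroup.centralizer (H i : Set W) := by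
      intro b hb
      rw [Subgroup.mem_centralizer_iff]
      intro x hx
      have g3 : H i ≤ Subgroup.centralizer {cs.simple b} := by
        refine (Subgroup.closure_le _).2 ?_
        rintro y (rfl | hy)
        · refine Subgroup.mem_centralizer_iff.2 fun z hz ↦ ?_
          rw [Set.mem_singleton_iff] at hz
          rw [hz]
          exact (g1 _ _ (Or.inl rfl) hb).symm
        · rw [Set.mem_singleton_iff] at hy
          rw [hy]
          refine Subgroup.mem_centralizer_iff.2 fun z hz ↦ ?_
          rw [Set.mem_singleton_iff] at hz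
          rw [hz]
          exact (g1 _ _ (Or.inr rfl) hb).symm
      exact ((Subgroup.mem_centralizer_iff.1 (g3 hx)) _ rfl).symm
    rintro y (rfl | hy)
    · exact g2 _ (Or.inl rfl)
    · rw [Set.mem_singleton_iff] at hy
      rw [hy]
      exact g2 _ (Or.inr rfl)
  have hK : ∀ T : Finset S, Finite (T.sup H : Subgroup W) := by
    intro T
    induction T using Finset.induction_on with
    | empty =>
      rw [Finset.sup_empty]
      infer_instance
    | insert i T hi ih =>
      rw [Finset.sup_insert]
      by_cases hT : f i ∈ T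
      · have : H i ≤ T.sup H := by
          rw [← hHf i]
          exact Finset.le_sup (f := H) hT
        rw [sup_eq_right.2 this]
        exact ih
      · refine finite_sup (hHfin i) ih ?_
        refine Finset.sup_le fun j hj ↦ hHc i j ?_ ?_
        · rintro rfl
          exact hi hj
        · rintro rfl
          exact hT hj
  have : Fintype S := Fintype.ofFinite S
  have htop : (Finset.univ.sup H : Subgroup W) = ⊤ := by
    rw [eq_top_iff, ← cs.subgroup_closure_range_simple, Subgroup.closure_le]
    rintro x ⟨i, rfl⟩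
    have h1 : H i ≤ Finset.univ.sup H := Finset.le_sup (f := H) (Finset.mem_univ i)
    exact h1 (Subgroup.subset_closure (Or.inl rfl))
  have h2 := hK Finset.univ
  rw [htop] at h2
  exact (Subgroup.topEquiv (G := W)).toEquiv.finite_iff.1 h2

end Pool.Agent.Helper49.AM
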